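import Pool.Agent.Helper92.AR.Tensor
import Pool.Agent.Helper83.AH.Basic

/-!
DC-7. The bilinear case `k = 1`: `anrk t` is the rank of the matrix `M = tmat t 0 0` and the form is a
sum of `rank M` products.  `tev t x = M.mulVec (x 0)` (`tev_eq_mulVec`, `tmat_congr`: `tmat t 0 x` does not
depend on `x`), so `zset t` is the kernel of `M`, with `q^(n - rank M)` elements, and `anrk t = rank M`.
`exists_pinv` (Helper83/AH/Basic) gives `M = (M * G₁) * (G₂ * M)` through `Fin (rank M)`:
`tform t h = ∑_l h_1(l) (M h_0)_l = ∑_a (∑_l h_1(l) (M G₁)_{l a}) * ((G₂ M) h_0)_a`.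
Take `J a = {0}` (so `(J a)ᶜ = {1}`), `g a x = ((G₂ M).mulVec (x 0)) a`, `h a x = ∑_l x 1 l * (M G₁) l a`.
-/

set_option autoImplicit false

namespace Pool.Agent.Helper83.DC7

open Finset
open Pool.Agent.Helper92.AR

variable {n : ℕ} {F : Type} [Field F] [Fintype F]

theorem pr_bilinear (t : (Fin 1 → Fin n) → Fin n → F) :
    ∃ N : ℕ, (N : ℝ) ≤ anrk t ∧ HasPR (tform t) N := by
  classical
  obtain ⟨M, hM⟩ : ∃ M : Matrix (Fin n) (Fin n) F, M = tmat (A := F) t 0 0 := ⟨_, rfl⟩
  have htev : ∀ x : Fin 1 → Fin n → F, tev (A := F) t x = M.mulVec (x 0) := by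
    intro x
    rw [tev_eq_mulVec t 0 x, hM,
      tmat_congr t 0 (p := x) (p' := 0) fun i hi => absurd (Subsingleton.elim i 0) hi]
  refine ⟨M.rank, ?_, ?_⟩
  · -- the analytic rank
    have hq1 : 1 < (Fintype.card F : ℝ) := by exact_mod_cast Fintype.one_lt_card
    have hq0 : 0 < (Fintype.card F : ℝ) := by linarith
    have hcard : (zset t).card = Fintype.card F ^ (n - M.rank) := by
      have h1 : (zset t).card = Fintype.card {x : Fin 1 → Fin n → F // tev (A := F) t x = 0} := by
        rw [Fintype.card_subtype]
        unfold zset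
        congr 1
      have e : {x : Fin 1 → Fin n → F // tev (A := F) t x = 0} ≃
          ↥(LinearMap.ker M.mulVecLin) :=
        { toFun := fun x => ⟨x.1 0, by
            rw [LinearMap.mem_ker, Matrix.mulVecLin_apply, ← htev]
            exact x.2⟩
          invFun := fun y => ⟨fun _ => y.1, by
            rw [htev]
            exact y.2⟩
          left_inv := fun x => by
            apply Subtype.ext
            funext i
            show x.1 0 = x.1 i
            rw [Subsingleton.elim i 0]
          right_inv := fun y => rfl }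
      have h2 : Module.finrank F ↥(LinearMap.ker M.mulVecLin) = n - M.rank := by
        have h3 := LinearMap.finrank_range_add_finrank_ker M.mulVecLin
        rw [Module.finrank_fin_fun] at h3
        have h4 : M.rank = Module.finrank F ↥(LinearMap.range M.mulVecLin) := rfl
        omega
      rw [h1, Fintype.card_congr e, Module.card_eq_pow_finrank (K := F), h2]
    have hr : M.rank ≤ n := by
      have := Matrix.rank_le_width M
      exact this
    unfold anrk
    rw [hcard, Nat.cast_pow, one_mul, Real.logb_div (by positivity) (by positivity),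
      Real.logb_pow, Real.logb_pow, Real.logb_self_eq_one hq1, Nat.cast_sub hr]
    linarith
  · -- the partition rank
    obtain ⟨G₁, G₂, -, hG⟩ := Pool.Agent.Helper83.AH.exists_pinv M
    refine ⟨fun _ => {0}, fun a x => (G₂ * M).mulVec (x 0) a,
      fun a x => ∑ l, x 1 l * (M * G₁) l a, fun a => ⟨⟨0, by simp⟩, ⟨1, by simp⟩, ?_, ?_⟩, ?_⟩
    · refine ⟨fun x y hxy => ?_, fun i hi x v w => ?_, fun i hi x c v => ?_⟩
      · simp only
        rw [hxy 0 (by simp)]
      · rw [Finset.mem_singleton] at hi
        subst hi
        simp only [Function.update_self, Matrix.mulVec_add, Pi.add_apply]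
      · rw [Finset.mem_singleton] at hi
        subst hi
        simp only [Function.update_self, Matrix.mulVec_smul, Pi.smul_apply]
    · have h1 : ∀ i : Fin 2, i ∈ ({0} : Finset (Fin 2))ᶜ → i = 1 := by decide
      refine ⟨fun x y hxy => ?_, fun i hi x v w => ?_, fun i hi x c v => ?_⟩
      · simp only
        rw [hxy 1 (by simp)]
      · rw [h1 i hi]
        simp only [Function.update_self, Pi.add_apply, add_mul, Finset.sum_add_distrib]
      · rw [h1 i hi]
        simp only [Function.update_self, Pi.smul_apply, smul_eq_mul, Finset.mul_sum, mul_assoc]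
    · intro x
      have h2 : tev (A := F) t (Fin.init x) = (M * G₁).mulVec ((G₂ * M).mulVec (x 0)) := by
        rw [htev, Matrix.mulVec_mulVec, ← Matrix.mul_assoc, hG]
        rfl
      unfold tform
      rw [h2]
      have h3 : ∀ l, x (Fin.last 1) l * (M * G₁).mulVec ((G₂ * M).mulVec (x 0)) l =
          ∑ a, (G₂ * M).mulVec (x 0) a * (x 1 l * (M * G₁) l a) := by
        intro l
        have h4 : (M * G₁).mulVec ((G₂ * M).mulVec (x 0)) l =
            ∑ a, (M * G₁) l a * (G₂ * M).mulVec (x 0) a := rfl
        rw [h4, Finset.mul_sum]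
        refine Finset.sum_congr rfl fun a _ => ?_
        have h5 : x (Fin.last 1) = x 1 := rfl
        rw [h5]
        ring
      rw [Finset.sum_congr rfl fun l _ => h3 l, Finset.sum_comm]
      refine Finset.sum_congr rfl fun a _ => ?_
      rw [Finset.mul_sum]

end Pool.Agent.Helper83.DC7
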