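import Mathlib

/-!
DC-1. BOX LEMMA (blow-up counting).  `α` finite non-empty, `W ⊆ α^m` of density `β`; the density of
the `z : Fin m → Fin l → α` all of whose `l^m` mixed tuples `(z_j (f j))_j` lie in `W` is at least
`β^(l^m)`.  Induction on `m` (split off slot `0`: `Fin.consEquiv`, `Fin.cons`, `Fin.forall_fin_succ_pi`,
or `Fin.insertNthEquiv`).  `m = 0`: both sides are `card W` (`0` or `1`).
`m + 1`: write `a = card α`.  For `w : Fin l → α` let `W_w = {y : Fin m → α | ∀ i, Fin.cons (w i) y ∈ W}`.
(i) `card (boxes l W) = ∑_w card (boxes l W_w)` (a function `f : Fin (m+1) → Fin l` is `Fin.cons i g`).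
(ii) induction hypothesis for every `w`, then the power mean inequality
`Real.pow_arith_mean_le_arith_mean_pow` (weights `1 / a^l`, exponent `l^m`):
`card (boxes l W) / a^((m+1) l) ≥ (∑_w card W_w / a^l / a^m)^(l^m)`.
(iii) `∑_w card W_w = ∑_y (deg y)^l` with `deg y = card {u | Fin.cons u y ∈ W}`
(`Finset.prod_univ_sum` / `Fintype.piFinset`: the set of `w` with all `w i` in a set `S` is
`Fintype.piFinset (fun _ => S)` with `card S ^ l` elements), and again the power mean inequality over `y`
(weights `1 / a^m`, exponent `l`): `∑_y (deg y / a)^l / a^m ≥ (∑_y deg y / a / a^m)^l = β^l`.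
(iv) `(β^l)^(l^m) = β^(l^(m+1))`.
-/

set_option autoImplicit false

namespace Pool.Agent.Helper83.DC7

open Finset

open Classical in
/-- the `z : Fin m → Fin l → α` all of whose mixed tuples lie in `W` -/
noncomputable def boxes {m : ℕ} {α : Type} [Fintype α] (l : ℕ) (W : Finset (Fin m → α)) :
    Finset (Fin m → Fin l → α) :=
  Finset.univ.filter fun z => ∀ f : Fin m → Fin l, (fun j => z j (f j)) ∈ W

private theorem pm {ι : Type} [Fintype ι] (N : ℝ) (hN : (Fintype.card ι : ℝ) = N) (hN0 : 0 < N)
    (z : ι → ℝ) (hz : ∀ i, 0 ≤ z i) (n : ℕ) :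
    ((∑ i, z i) / N) ^ n ≤ (∑ i, z i ^ n) / N := by
  have h := Real.pow_arith_mean_le_arith_mean_pow (Finset.univ : Finset ι) (fun _ => 1 / N) z
    (fun _ _ => by positivity) (by
      rw [Finset.sum_const, Finset.card_univ, nsmul_eq_mul, hN, mul_one_div_cancel hN0.ne'])
    (fun i _ => hz i) n
  rw [← Finset.mul_sum, ← Finset.mul_sum] at h
  rw [div_eq_inv_mul, div_eq_inv_mul, inv_eq_one_div]
  exact h

private theorem card_cons {m : ℕ} {β : Type} [Fintype β] (p : (Fin (m + 1) → β) → Prop)
    [DecidablePred p] :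
    ((Finset.univ.filter p).card : ℕ) =
      ∑ u : β, (Finset.univ.filter fun y : Fin m → β => p (Fin.cons u y)).card := by
  rw [Finset.card_filter, ← (Fin.consEquiv (fun _ : Fin (m + 1) => β)).sum_comp,
    Fintype.sum_prod_type]
  refine Finset.sum_congr rfl fun u _ => ?_
  rw [Finset.card_filter]
  rfl

theorem box_lemma {m : ℕ} {α : Type} [Fintype α] [Nonempty α] (l : ℕ) (hl : 1 ≤ l)
    (W : Finset (Fin m → α)) :
    ((W.card : ℝ) / (Fintype.card α : ℝ) ^ m) ^ (l ^ m) ≤
      ((boxes l W).card : ℝ) / (Fintype.card α : ℝ) ^ (m * l) := by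
  classical
  set a : ℝ := (Fintype.card α : ℝ) with ha
  have ha0 : 0 < a := by
    rw [ha]
    exact_mod_cast Fintype.card_pos
  induction m with
  | zero =>
    rw [pow_zero, pow_zero, div_one, pow_one, Nat.zero_mul, pow_zero, div_one]
    rcases W.eq_empty_or_nonempty with h | ⟨x, hx⟩
    · rw [h, Finset.card_empty, Nat.cast_zero]
      exact Nat.cast_nonneg _
    · have h1 : W.card ≤ 1 := Finset.card_le_one_of_subsingleton _
      have h2 : (default : Fin 0 → Fin l → α) ∈ boxes l W := by
        unfold boxes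
        rw [Finset.mem_filter]
        refine ⟨Finset.mem_univ _, fun f => ?_⟩
        have h3 : (fun j => (default : Fin 0 → Fin l → α) j (f j)) = x := Subsingleton.elim _ _
        rw [h3]
        exact hx
      have h4 : 1 ≤ (boxes l W).card := Finset.card_pos.2 ⟨_, h2⟩
      exact_mod_cast h1.trans h4
  | succ m ih =>
    set Ww : (Fin l → α) → Finset (Fin m → α) := fun w =>
      Finset.univ.filter fun y => ∀ i, (Fin.cons (w i) y : Fin (m + 1) → α) ∈ W with hWw
    -- (i)
    have h1 : (boxes l W).card = ∑ w, (boxes l (Ww w)).card := by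
      unfold boxes
      rw [card_cons]
      refine Finset.sum_congr rfl fun w _ => ?_
      congr 1
      refine Finset.filter_congr fun z _ => ?_
      rw [Fin.forall_fin_succ_pi]
      have h2 : ∀ (i : Fin l) (g : Fin m → Fin l),
          (fun j => (Fin.cons w z : Fin (m + 1) → Fin l → α) j
            ((Fin.cons i g : Fin (m + 1) → Fin l) j)) =
          (Fin.cons (w i) (fun j => z j (g j)) : Fin (m + 1) → α) := by
        intro i g
        funext j
        refine Fin.cases ?_ (fun j => ?_) j
        · rfl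
        · rfl
      constructor
      · intro h g
        rw [hWw, Finset.mem_filter]
        refine ⟨Finset.mem_univ _, fun i => ?_⟩
        rw [← h2 i g]
        exact h i g
      · intro h i g
        have h3 := h g
        rw [hWw, Finset.mem_filter] at h3
        rw [h2 i g]
        exact h3.2 i
    -- (iii)
    set dg : (Fin m → α) → ℕ := fun y =>
      (Finset.univ.filter fun u : α => (Fin.cons u y : Fin (m + 1) → α) ∈ W).card with hdg
    have h3 : ∑ w, (Ww w).card = ∑ y, dg y ^ l := by
      have e1 : ∀ w, (Ww w).card = ∑ y : Fin m → α,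
          if (∀ i, (Fin.cons (w i) y : Fin (m + 1) → α) ∈ W) then 1 else 0 := fun w => by
        rw [hWw, Finset.card_filter]
      rw [Finset.sum_congr rfl fun w _ => e1 w, Finset.sum_comm]
      refine Finset.sum_congr rfl fun y _ => ?_
      rw [← Finset.card_filter]
      have e2 : (Finset.univ.filter fun w : Fin l → α =>
          ∀ i, (Fin.cons (w i) y : Fin (m + 1) → α) ∈ W) =
          Fintype.piFinset (fun _ : Fin l =>
            Finset.univ.filter fun u : α => (Fin.cons u y : Fin (m + 1) → α) ∈ W) := by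
        ext w
        rw [Finset.mem_filter, Fintype.mem_piFinset]
        constructor
        · rintro ⟨-, h⟩ i
          exact Finset.mem_filter.2 ⟨Finset.mem_univ _, h i⟩
        · intro h
          exact ⟨Finset.mem_univ _, fun i => (Finset.mem_filter.1 (h i)).2⟩
      rw [e2, Fintype.card_piFinset, Finset.prod_const, Finset.card_univ, Fintype.card_fin]
    have h4 : W.card = ∑ y, dg y := by
      have e1 : W = Finset.univ.filter fun x => x ∈ W := by
        ext x
        simp
      rw [e1, card_cons]
      have e2 : ∀ u : α, (Finset.univ.filter fun y : Fin m → α =>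
          (Fin.cons u y : Fin (m + 1) → α) ∈ W).card = ∑ y : Fin m → α,
          if (Fin.cons u y : Fin (m + 1) → α) ∈ W then 1 else 0 := fun u => by
        rw [Finset.card_filter]
      rw [Finset.sum_congr rfl fun u _ => e2 u, Finset.sum_comm]
      refine Finset.sum_congr rfl fun y _ => ?_
      exact (Finset.card_filter _ _).symm
    have hcl : (Fintype.card (Fin l → α) : ℝ) = a ^ l := by
      rw [Fintype.card_fun, Fintype.card_fin, Nat.cast_pow]
    have hcm : (Fintype.card (Fin m → α) : ℝ) = a ^ m := by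
      rw [Fintype.card_fun, Fintype.card_fin, Nat.cast_pow]
    -- power mean over `y`
    have h5 := pm (a ^ m) hcm (pow_pos ha0 m) (fun y : Fin m → α => (dg y : ℝ) / a)
      (fun y => div_nonneg (Nat.cast_nonneg _) ha0.le) l
    have h6 : (∑ y : Fin m → α, (dg y : ℝ) / a) / a ^ m = (W.card : ℝ) / a ^ (m + 1) := by
      rw [← Finset.sum_div, h4, Nat.cast_sum, div_div, pow_succ']
    have h7 : (∑ y : Fin m → α, ((dg y : ℝ) / a) ^ l) / a ^ m =
        (∑ w, ((Ww w).card : ℝ) / a ^ m) / a ^ l := by
      have e1 : ∑ y : Fin m → α, ((dg y : ℝ) / a) ^ l = (∑ y : Fin m → α, (dg y : ℝ) ^ l) / a ^ l := by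
        rw [Finset.sum_div]
        exact Finset.sum_congr rfl fun y _ => div_pow _ _ _
      have e2 : ∑ w, ((Ww w).card : ℝ) = ∑ y : Fin m → α, (dg y : ℝ) ^ l := by
        exact_mod_cast h3
      rw [e1, ← Finset.sum_div, e2, div_div, div_div, mul_comm]
    rw [h6, h7] at h5
    -- power mean over `w`
    have h8 := pm (a ^ l) hcl (pow_pos ha0 l) (fun w : Fin l → α => ((Ww w).card : ℝ) / a ^ m)
      (fun w => div_nonneg (Nat.cast_nonneg _) (pow_pos ha0 m).le) (l ^ m)
    have h9 : (∑ w : Fin l → α, (((Ww w).card : ℝ) / a ^ m) ^ (l ^ m)) / a ^ l ≤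
        ((boxes l W).card : ℝ) / a ^ ((m + 1) * l) := by
      have e1 : ((boxes l W).card : ℝ) / a ^ ((m + 1) * l) =
          (∑ w : Fin l → α, ((boxes l (Ww w)).card : ℝ) / a ^ (m * l)) / a ^ l := by
        rw [← Finset.sum_div, h1, Nat.cast_sum, div_div, ← pow_add]
        congr 2
        ring
      rw [e1]
      exact div_le_div_of_nonneg_right (Finset.sum_le_sum fun w _ => ih (Ww w))
        (pow_pos ha0 l).le
    refine le_trans ?_ (h8.trans h9)
    rw [pow_succ' l m, pow_mul]
    exact pow_le_pow_left₀ (pow_nonneg (div_nonneg (Nat.cast_nonneg _)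
      (pow_pos ha0 _).le) _) h5 _

end Pool.Agent.Helper83.DC7
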