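import Pool.Agent.Helper83.DC7.Poly
import Pool.Agent.Helper92.AR.Bias

/-!
DC-6. The analytic rank of the problem is `anrk`.  Reindex the sum over
`x : Fin (k+1) × Fin n → F` by `h : Fin (k+1) → Fin n → F` (`Equiv.curry`), use `tform_tOf` and `bias_sum`:
the sum is `q^n * card (zset (tOf P))`, a non-negative real; its norm divided by `q^((k+1) n)` is
`card (zset) / q^(k n)`.
-/

set_option autoImplicit false

namespace Pool.Agent.Helper83.DC7

open Finset
open Pool.Agent.Helper92.AR
open Pool.Agent.Helper83.AH (IsML MultiHom)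

variable {k n : ℕ} {F : Type} [Field F] [Fintype F]

theorem anrk_eq {P : MvPolynomial (Fin (k + 1) × Fin n) F} (hP : MultiHom Finset.univ P)
    (ψ : AddChar F ℂ) (hψ : ψ ≠ 1) :
    -Real.logb (Fintype.card F : ℝ)
      (‖∑ x : Fin (k + 1) × Fin n → F, ψ (MvPolynomial.eval x P)‖ /
        (Fintype.card F : ℝ) ^ ((k + 1) * n)) = anrk (tOf P) := by
  have h1 : ∑ x : Fin (k + 1) × Fin n → F, ψ (MvPolynomial.eval x P) =
      (Fintype.card F : ℂ) ^ n * ((zset (tOf P)).card : ℂ) := by
    rw [← bias_sum ψ hψ (tOf P)]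
    refine Fintype.sum_equiv (Equiv.curry _ _ _) _ _ fun x => ?_
    rw [tform_tOf hP]
    rfl
  have hq : (0 : ℝ) < Fintype.card F := by exact_mod_cast Fintype.card_pos
  rw [h1, anrk]
  congr 2
  rw [norm_mul, norm_pow, Complex.norm_natCast, Complex.norm_natCast, add_mul, one_mul, pow_add,
    mul_comm ((Fintype.card F : ℝ) ^ (k * n)), mul_div_mul_left]
  positivity

end Pool.Agent.Helper83.DC7
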