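import Mathlib

/-!
DC-4. Descent of the Schmidt rank from `K` to `F`, `l = [K : F]`.
Choose an `F`-linear map `τ : K → F` with `τ 1 = 1` (e.g. `1 ≠ 0` in the `F`-space `K`:
`exists_dual_forall_apply_eq_zero_iff`, `Module.exists_dual...`, `LinearMap.exists_leftInverse_of_injective`
for `Algebra.linearMap F K`).  Let `τ*` be `τ` applied to all coefficients (`Finsupp.mapRange.linearMap τ`
on `MvPolynomial σ K = AddMonoidAlgebra`), an `F`-linear map with `coeff m (τ* P) = τ (coeff m P)`.
(i) `τ* (map (algebraMap F K) P) = P`;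
(ii) `τ* (map (algebraMap F K) A * B) = A * τ* B` for `A` over `F` (`MvPolynomial.coeff_mul`, linearity);
(iii) `Q = ∑_a C (b a) * map (algebraMap F K) (Q_a)` with `coeff m (Q_a) = b.repr (coeff m Q) a`, so
`totalDegree (Q_a) ≤ totalDegree Q` (support is contained in the support of `Q`);
(iv) `τ* (Q * R) = ∑_a Q_a * τ* (C (b a) * R)` and `totalDegree (τ* (C (b a) * R)) ≤ totalDegree R`.
So `P = τ* (∑_i Q_i R_i) = ∑_i ∑_a (Q_i)_a * τ* (C (b a) R_i)`; index by
`finProdFinEquiv : Fin l × Fin r ≃ Fin (l * r)`.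
-/

set_option autoImplicit false

namespace Pool.Agent.Helper83.DC7

open Finset

section Aux

variable {σ F K : Type} [Field F] [Field K] [Algebra F K]

/-- a linear map applied to all coefficients -/
private noncomputable def tst (φ : K →ₗ[F] F) (P : MvPolynomial σ K) : MvPolynomial σ F :=
  ∑ m ∈ P.support, MvPolynomial.monomial m (φ (P.coeff m))

private lemma coeff_tst (φ : K →ₗ[F] F) (P : MvPolynomial σ K) (m : σ →₀ ℕ) :
    (tst φ P).coeff m = φ (P.coeff m) := by
  classical
  unfold tst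
  rw [MvPolynomial.coeff_sum]
  simp only [MvPolynomial.coeff_monomial]
  rw [Finset.sum_ite_eq']
  split_ifs with h
  · rfl
  · rw [MvPolynomial.notMem_support_iff.1 h, map_zero]

private lemma degree_tst (φ : K →ₗ[F] F) (P : MvPolynomial σ K) :
    (tst φ P).totalDegree ≤ P.totalDegree := by
  unfold MvPolynomial.totalDegree
  refine Finset.sup_mono fun m hm => ?_
  rw [MvPolynomial.mem_support_iff] at hm ⊢
  intro h
  apply hm
  rw [coeff_tst, h, map_zero]

private lemma tst_sum (φ : K →ₗ[F] F) {ι : Type} (s : Finset ι) (P : ι → MvPolynomial σ K) :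
    tst φ (∑ i ∈ s, P i) = ∑ i ∈ s, tst φ (P i) := by
  ext m
  rw [coeff_tst, MvPolynomial.coeff_sum, MvPolynomial.coeff_sum, map_sum]
  exact Finset.sum_congr rfl fun i _ => (coeff_tst φ (P i) m).symm

private lemma tst_map_mul (φ : K →ₗ[F] F) (A : MvPolynomial σ F) (B : MvPolynomial σ K) :
    tst φ (MvPolynomial.map (algebraMap F K) A * B) = A * tst φ B := by
  classical
  ext m
  rw [coeff_tst, MvPolynomial.coeff_mul, MvPolynomial.coeff_mul, map_sum]
  refine Finset.sum_congr rfl fun x _ => ?_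
  rw [MvPolynomial.coeff_map, coeff_tst, ← Algebra.smul_def, map_smul, smul_eq_mul]

private lemma tst_map (φ : K →ₗ[F] F) (hφ : φ 1 = 1) (A : MvPolynomial σ F) :
    tst φ (MvPolynomial.map (algebraMap F K) A) = A := by
  ext m
  rw [coeff_tst, MvPolynomial.coeff_map, Algebra.algebraMap_eq_smul_one, map_smul, hφ,
    smul_eq_mul, mul_one]

private lemma expand {l : ℕ} (b : Module.Basis (Fin l) F K) (Q : MvPolynomial σ K) :
    Q = ∑ a, MvPolynomial.map (algebraMap F K) (tst (b.coord a) Q) * MvPolynomial.C (b a) := by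
  ext m
  rw [MvPolynomial.coeff_sum]
  conv_lhs => rw [← b.sum_repr (Q.coeff m)]
  refine Finset.sum_congr rfl fun a _ => ?_
  rw [mul_comm, MvPolynomial.coeff_C_mul, MvPolynomial.coeff_map, coeff_tst, Algebra.smul_def,
    mul_comm]
  rfl

private lemma tst_mul {l : ℕ} (φ : K →ₗ[F] F) (b : Module.Basis (Fin l) F K)
    (Q R : MvPolynomial σ K) :
    tst φ (Q * R) = ∑ a, tst (b.coord a) Q * tst φ (MvPolynomial.C (b a) * R) := by
  conv_lhs => rw [expand b Q]
  rw [Finset.sum_mul, tst_sum]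
  refine Finset.sum_congr rfl fun a _ => ?_
  rw [mul_assoc, tst_map_mul]

private lemma exists_tau : ∃ φ : K →ₗ[F] F, φ 1 = 1 := by
  have hinj : LinearMap.ker (Algebra.linearMap F K) = ⊥ := by
    rw [LinearMap.ker_eq_bot]
    exact (algebraMap F K).injective
  obtain ⟨g, hg⟩ := LinearMap.exists_leftInverse_of_injective (Algebra.linearMap F K) hinj
  refine ⟨g, ?_⟩
  have h := LinearMap.congr_fun hg 1
  simpa using h

end Aux

theorem schmidt_descent {σ F K : Type} [Field F] [Field K] [Algebra F K] {l : ℕ} (hl : 1 ≤ l)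
    (b : Module.Basis (Fin l) F K) (d r : ℕ) (P : MvPolynomial σ F)
    (Q R : Fin r → MvPolynomial σ K)
    (hdeg : ∀ i, (Q i).totalDegree < d ∧ (R i).totalDegree < d)
    (hP : MvPolynomial.map (algebraMap F K) P = ∑ i, Q i * R i) :
    ∃ Q' R' : Fin (l * r) → MvPolynomial σ F,
      (∀ i, (Q' i).totalDegree < d ∧ (R' i).totalDegree < d) ∧ P = ∑ i, Q' i * R' i := by
  obtain ⟨φ, hφ⟩ := exists_tau (F := F) (K := K)
  let e : Fin l × Fin r ≃ Fin (l * r) := finProdFinEquiv
  refine ⟨fun i => tst (b.coord (e.symm i).1) (Q (e.symm i).2),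
    fun i => tst φ (MvPolynomial.C (b (e.symm i).1) * R (e.symm i).2), ?_, ?_⟩
  · intro i
    refine ⟨(degree_tst _ _).trans_lt (hdeg (e.symm i).2).1,
      ((degree_tst _ _).trans ?_).trans_lt (hdeg (e.symm i).2).2⟩
    refine (MvPolynomial.totalDegree_mul _ _).trans ?_
    rw [MvPolynomial.totalDegree_C, zero_add]
  · rw [Equiv.sum_comp e.symm (fun p : Fin l × Fin r => tst (b.coord p.1) (Q p.2) *
      tst φ (MvPolynomial.C (b p.1) * R p.2)), Fintype.sum_prod_type_right]
    rw [← tst_map φ hφ P, hP, tst_sum]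
    exact Finset.sum_congr rfl fun i _ => tst_mul φ b (Q i) (R i)

end Pool.Agent.Helper83.DC7
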