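import Pool.Agent.Helper83.DC7.ExtCount
import Pool.Agent.Helper92.AR.Level

/-!
DC-3. Analytic rank over a field extension of degree `l`: `l * anrk (tK K t) ≤ l^k * anrk t`.
`card K = q^l` (`Module.card_eq_pow_finrank`, `Module.finrank_eq_card_basis`).  Let
`β = card (zset t) / q^(k n) > 0` (`zset_nonempty`, Helper92/AR/Level) and
`β' = card (zset (tK K t)) / (q^l)^(k n)`.  `box_lemma` for `α = Fin n → F`, `m = k`, `W = zset t`
(`card α ^ k = q^(k n)`, `card α ^ (k l) = (q^l)^(k n)`) and `card_boxes_le` give `β' ≥ β^(l^k) > 0`.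
`Real.logb (q^l) y = Real.logb q y / l`, monotone in `y`, `Real.logb q (β^(l^k)) = l^k * Real.logb q β`.
-/

set_option autoImplicit false

namespace Pool.Agent.Helper83.DC7

open Finset
open Pool.Agent.Helper92.AR

variable {k n l : ℕ} {F : Type} [Field F] [Fintype F] {K : Type} [Field K] [Fintype K] [Algebra F K]

theorem anrk_ext (hk : 1 ≤ k) (hl : 1 ≤ l) (b : Module.Basis (Fin l) F K)
    (t : (Fin k → Fin n) → Fin n → F) :
    (l : ℝ) * anrk (tK K t) ≤ (l : ℝ) ^ k * anrk t := by
  have hQ : Fintype.card K = Fintype.card F ^ l := by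
    have h1 := Module.card_eq_pow_finrank (K := F) (V := K)
    rw [Module.finrank_eq_card_basis b, Fintype.card_fin] at h1
    exact h1
  have hQ' : (Fintype.card K : ℝ) = (Fintype.card F : ℝ) ^ l := by
    rw [hQ]
    push_cast
    rfl
  have hq : (1 : ℝ) < (Fintype.card F : ℝ) := lv_q F
  have hq0 : (0 : ℝ) < (Fintype.card F : ℝ) := by linarith
  have hlog : 0 < Real.log (Fintype.card F : ℝ) := Real.log_pos hq
  have hl0 : (0 : ℝ) < l := by exact_mod_cast hl
  have hz := lv_card hk t
  have hz' := lv_card hk (tK K t)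
  set β : ℝ := ((zset t).card : ℝ) / (Fintype.card F : ℝ) ^ (k * n) with hβ
  set β' : ℝ := ((zset (tK K t)).card : ℝ) / (Fintype.card K : ℝ) ^ (k * n) with hβ'
  have hβ0 : 0 < β := div_pos hz (pow_pos hq0 _)
  have hKpos : (0 : ℝ) < (Fintype.card K : ℝ) ^ (k * n) := by
    rw [hQ']
    positivity
  have hβ'0 : 0 < β' := div_pos hz' hKpos
  have hbox := box_lemma (m := k) (α := Fin n → F) l hl (zset t)
  have e1 : (Fintype.card (Fin n → F) : ℝ) ^ k = (Fintype.card F : ℝ) ^ (k * n) := by
    rw [Fintype.card_fun, Fintype.card_fin]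
    push_cast
    rw [← pow_mul, mul_comm]
  have e2 : (Fintype.card (Fin n → F) : ℝ) ^ (k * l) = (Fintype.card K : ℝ) ^ (k * n) := by
    rw [hQ', Fintype.card_fun, Fintype.card_fin]
    push_cast
    rw [← pow_mul, ← pow_mul]
    congr 1
    ring
  rw [e1, e2] at hbox
  have hle : β ^ (l ^ k) ≤ β' := by
    refine hbox.trans ?_
    rw [hβ']
    apply div_le_div_of_nonneg_right _ hKpos.le
    exact_mod_cast card_boxes_le b t
  have h1 : (l : ℝ) * anrk (tK K t) = -(Real.log β' / Real.log (Fintype.card F : ℝ)) := by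
    unfold anrk
    rw [← hβ', Real.logb, hQ', Real.log_pow]
    field_simp
  have h2 : (l : ℝ) ^ k * anrk t = -(Real.log (β ^ (l ^ k)) / Real.log (Fintype.card F : ℝ)) := by
    unfold anrk
    rw [← hβ, Real.logb, Real.log_pow]
    push_cast
    ring
  rw [h1, h2, neg_le_neg_iff]
  exact div_le_div_of_nonneg_right (Real.log_le_log (pow_pos hβ0 _) hle) hlog.le

end Pool.Agent.Helper83.DC7
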