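import Pool.Agent.Helper92.AR.Tensor
import Pool.Agent.Helper83.DC7.Box

/-!
DC-2. Zero set over a field extension.  `b : Fin l → K` a basis of `K` over `F`.
`comb_bijective`: `comb b` is, for each `(j, a)`, the inverse of the coordinate map `b.equivFun`
(`Module.Basis.equivFun_symm_apply`: `b.equivFun.symm c = ∑ i, c i • b i`).
`tev_comb`: expand `∏_j (∑_i z j i (a j) • b i) = ∑_{f : Fin k → Fin l} ∏_j (z j (f j) (a j) • b (f j))`
(`Finset.prod_univ_sum`, `Fintype.piFinset_univ`), exchange the sums.
`card_boxes_le`: `comb b` maps `boxes l (zset t)` injectively into `zset (tK K t)` by `tev_comb`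
(`Finset.card_le_card_of_injOn`).
-/

set_option autoImplicit false

namespace Pool.Agent.Helper83.DC7

open Finset
open Pool.Agent.Helper92.AR

variable {k n l : ℕ} {F : Type} [Field F] {K : Type} [Field K] [Algebra F K]

/-- the tuple over `K` with coordinates `z` with respect to the basis `b` -/
noncomputable def comb (b : Module.Basis (Fin l) F K) (z : Fin k → Fin l → Fin n → F) :
    Fin k → Fin n → K :=
  fun j a => ∑ i, z j i a • b i

theorem comb_bijective (b : Module.Basis (Fin l) F K) :
    Function.Bijective (comb (k := k) (n := n) b) := by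
  constructor
  · intro z z' h
    funext j i a
    have h1 : comb b z j a = comb b z' j a := by rw [h]
    have h2 : b.equivFun.symm (fun i => z j i a) = b.equivFun.symm (fun i => z' j i a) := by
      rw [Module.Basis.equivFun_symm_apply, Module.Basis.equivFun_symm_apply]
      exact h1
    exact congrFun (b.equivFun.symm.injective h2) i
  · intro x
    refine ⟨fun j i a => b.equivFun (x j a) i, ?_⟩
    funext j a
    exact b.sum_equivFun (x j a)

theorem tev_comb (b : Module.Basis (Fin l) F K) (t : (Fin k → Fin n) → Fin n → F)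
    (z : Fin k → Fin l → Fin n → F) (c : Fin n) :
    tev (A := K) (tK K t) (comb b z) c =
      ∑ f : Fin k → Fin l, (tev (A := F) t (fun j => z j (f j)) c) • ∏ j, b (f j) := by
  have h1 : ∀ i : Fin k → Fin n, ∏ j, comb b z j (i j) =
      ∑ f : Fin k → Fin l, ∏ j, (z j (f j) (i j) • b (f j)) := by
    intro i
    have h2 := Finset.prod_univ_sum (fun _ : Fin k => (Finset.univ : Finset (Fin l)))
      (fun j a => z j a (i j) • b a)
    rw [Fintype.piFinset_univ] at h2
    exact h2
  unfold tev
  simp only [h1, Finset.mul_sum, Finset.sum_smul]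
  rw [Finset.sum_comm]
  refine Finset.sum_congr rfl fun f _ => Finset.sum_congr rfl fun i _ => ?_
  simp only [Algebra.smul_def, Finset.prod_mul_distrib, map_mul, map_prod, tK,
    Algebra.algebraMap_self, RingHom.id_apply]
  ring

theorem ec_mem_boxes {m : ℕ} {α : Type} [Fintype α] (l : ℕ) (W : Finset (Fin m → α))
    (z : Fin m → Fin l → α) :
    z ∈ boxes l W ↔ ∀ f : Fin m → Fin l, (fun j => z j (f j)) ∈ W := by
  simp [boxes]

theorem ec_mem_zset {F : Type} [Field F] [Fintype F] (t : (Fin k → Fin n) → Fin n → F)
    (x : Fin k → Fin n → F) : x ∈ zset t ↔ tev (A := F) t x = 0 := by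
  simp [zset]

theorem mem_zset_comb [Fintype F] [Fintype K] (b : Module.Basis (Fin l) F K)
    (t : (Fin k → Fin n) → Fin n → F) (z : Fin k → Fin l → Fin n → F)
    (hz : z ∈ boxes l (zset t)) : comb b z ∈ zset (tK K t) := by
  rw [ec_mem_boxes] at hz
  rw [ec_mem_zset]
  funext c
  rw [tev_comb, Pi.zero_apply]
  apply Finset.sum_eq_zero
  intro f _
  have h1 := hz f
  rw [ec_mem_zset] at h1
  rw [h1, Pi.zero_apply, zero_smul]

theorem card_boxes_le [Fintype F] [Fintype K] (b : Module.Basis (Fin l) F K)
    (t : (Fin k → Fin n) → Fin n → F) :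
    (boxes l (zset t)).card ≤ (zset (tK K t)).card := by
  apply Finset.card_le_card_of_injOn (comb b)
  · intro z hz
    exact mem_zset_comb b t z hz
  · intro z _ z' _ h
    exact (comb_bijective b).1 h

end Pool.Agent.Helper83.DC7
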