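import Mathlib

/-!
DC-8. Every finite field has an extension of every degree `l ≥ 1`, with a basis indexed by `Fin l`:
`FiniteField.Extension F p l` (Mathlib, `Mathlib/FieldTheory/Finite/Extension.lean`), `p = ringChar F`
(`CharP`, `Fact p.Prime`), its finrank over `F` is `l`; `Module.finBasisOfFinrankEq`,
`Fintype.ofFinite`.
-/

set_option autoImplicit false

namespace Pool.Agent.Helper83.DC7

theorem exists_ext (F : Type) [Field F] [Fintype F] (l : ℕ) (hl : 1 ≤ l) :
    ∃ (K : Type) (_ : Field K) (_ : Fintype K) (_ : Algebra F K),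
      Nonempty (Module.Basis (Fin l) F K) := by
  have : NeZero l := ⟨by omega⟩
  have : Fact (ringChar F).Prime := ⟨CharP.char_is_prime F (ringChar F)⟩
  have : CharP F (ringChar F) := ringChar.charP F
  refine ⟨FiniteField.Extension F (ringChar F) l, inferInstance, Fintype.ofFinite _,
    inferInstance, ⟨Module.finBasisOfFinrankEq _ _ ?_⟩⟩
  exact FiniteField.finrank_extension F (ringChar F) l

end Pool.Agent.Helper83.DC7
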