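import Pool.Agent.Helper83.DC7.ExtAnrk
import Pool.Agent.Helper83.DC7.Descent
import Pool.Agent.Helper83.DC7.Bridge
import Pool.Agent.Helper83.DC7.Bilinear
import Pool.Agent.Helper83.DC7.FieldExt

/-!
DC-9. The statement of the problem from the theorem over large fields.
-/

set_option autoImplicit false

namespace Pool.Agent.Helper83.DC7

open Finset
open Pool.Agent.Helper92.AR
open Pool.Agent.Helper83.AH (IsML MultiHom)

/-- partition rank is at most `C` times the analytic rank over all fields with at least `q0`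
elements, for tensors with `k` input slots -/
def LargeField (k : ℕ) : Prop :=
  ∃ (q0 : ℕ) (C : ℝ), ∀ (F : Type) [Field F] [Fintype F], q0 ≤ Fintype.card F →
    ∀ (n : ℕ) (t : (Fin k → Fin n) → Fin n → F),
      ∃ N : ℕ, (N : ℝ) ≤ C * anrk t ∧ HasPR (tform t) N

theorem largeField_one : LargeField 1 :=
  ⟨0, 1, fun F _ _ _ n t => by
    obtain ⟨N, h1, h2⟩ := pr_bilinear t
    exact ⟨N, by rw [one_mul]; exact h1, h2⟩⟩

/-- all finite fields, Schmidt rank -/
theorem all_fields (k : ℕ) (hk : 1 ≤ k) (hL : LargeField k) :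
    ∃ C : ℝ, 0 < C ∧ ∀ (F : Type) [Field F] [Fintype F] (n : ℕ)
      (P : MvPolynomial (Fin (k + 1) × Fin n) F), MultiHom Finset.univ P →
      ∃ N : ℕ, (N : ℝ) ≤ C * anrk (tOf P) ∧
        ∃ Q R : Fin N → MvPolynomial (Fin (k + 1) × Fin n) F,
          (∀ i, (Q i).totalDegree < k + 1 ∧ (R i).totalDegree < k + 1) ∧ P = ∑ i, Q i * R i := by
  obtain ⟨q0, C, hC⟩ := hL
  set l : ℕ := q0 + 1 with hl
  have hl1 : 1 ≤ l := by omega
  refine ⟨max C 1 * (l : ℝ) ^ k, by positivity, ?_⟩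
  intro F _ _ n P hP
  obtain ⟨K, iK, jK, aK, ⟨b⟩⟩ := exists_ext F l hl1
  have hcard : q0 ≤ Fintype.card K := by
    have h1 : Fintype.card K = Fintype.card F ^ l := by
      rw [Module.card_eq_pow_finrank (K := F) (V := K), Module.finrank_eq_card_basis b,
        Fintype.card_fin]
    rw [h1]
    have h2 : 2 ≤ Fintype.card F := Fintype.one_lt_card
    calc q0 ≤ l := by omega
      _ ≤ 2 ^ l := Nat.lt_two_pow_self.le
      _ ≤ Fintype.card F ^ l := Nat.pow_le_pow_left h2 l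
  obtain ⟨N, hN, hPR⟩ := hC K hcard n (tK K (tOf P))
  have hPR' : HasPR (tform (tOf (MvPolynomial.map (algebraMap F K) P))) N := by
    rw [tOf_map]
    exact hPR
  obtain ⟨Q, R, hdeg, hQR⟩ := schmidt_of_pr (multiHom_map (K := K) hP) hPR'
  obtain ⟨Q', R', hdeg', hQR'⟩ := schmidt_descent hl1 b (k + 1) N P Q R hdeg hQR
  refine ⟨l * N, ?_, Q', R', hdeg', hQR'⟩
  have h3 := anrk_ext hk hl1 b (tOf P)
  have h4 : 0 ≤ anrk (tK K (tOf P)) := anrk_nonneg hk _
  have h5 : (N : ℝ) ≤ max C 1 * anrk (tK K (tOf P)) :=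
    hN.trans (mul_le_mul_of_nonneg_right (le_max_left _ _) h4)
  have h6 : (0 : ℝ) ≤ max C 1 := le_trans zero_le_one (le_max_right _ _)
  calc ((l * N : ℕ) : ℝ) = (l : ℝ) * N := by push_cast; ring
    _ ≤ (l : ℝ) * (max C 1 * anrk (tK K (tOf P))) := by gcongr
    _ = max C 1 * ((l : ℝ) * anrk (tK K (tOf P))) := by ring
    _ ≤ max C 1 * ((l : ℝ) ^ k * anrk (tOf P)) := mul_le_mul_of_nonneg_left h3 h6
    _ = _ := by ring

theorem main (hL : ∀ s : ℕ, LargeField (s + 2)) :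
    ∀ d : ℕ, 2 ≤ d → ∃ ε : ℝ, 0 < ε ∧
    ∀ (F : Type) [Field F] [Fintype F] (n : ℕ) (P : MvPolynomial (Fin d × Fin n) F),
      (∀ m ∈ P.support, ∀ i : Fin d, ∑ j : Fin n, m (i, j) = 1) →
      ∀ ψ : AddChar F ℂ, ψ ≠ 1 →
      ∀ r : ℕ,
        (¬ ∃ k < r, ∃ Q R : Fin k → MvPolynomial (Fin d × Fin n) F,
            (∀ i, (Q i).totalDegree < d ∧ (R i).totalDegree < d) ∧
              P = ∑ i, Q i * R i) →
        ε * (r : ℝ) ≤ -Real.logb (Fintype.card F : ℝ)
          (‖∑ x : Fin d × Fin n → F, ψ (MvPolynomial.eval x P)‖ /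
            (Fintype.card F : ℝ) ^ (d * n)) := by
  intro d hd
  obtain ⟨k, rfl⟩ : ∃ k, d = k + 1 := ⟨d - 1, by omega⟩
  have hk : 1 ≤ k := by omega
  have hLk : LargeField k := by
    rcases Nat.eq_or_lt_of_le hk with h | h
    · rw [← h]
      exact largeField_one
    · obtain ⟨s, rfl⟩ : ∃ s, k = s + 2 := ⟨k - 2, by omega⟩
      exact hL s
  obtain ⟨C, hC0, hC⟩ := all_fields k hk hLk
  refine ⟨1 / C, by positivity, ?_⟩
  intro F _ _ n P hP ψ hψ r hr
  have hP' : MultiHom Finset.univ P := by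
    intro m hm i
    simp [hP m hm i]
  obtain ⟨N, hN, Q, R, hdeg, hQR⟩ := hC F n P hP'
  rw [anrk_eq hP' ψ hψ]
  have hrN : r ≤ N := by
    by_contra hcon
    exact hr ⟨N, not_le.mp hcon, Q, R, hdeg, hQR⟩
  have h1 : (r : ℝ) ≤ C * anrk (tOf P) := le_trans (by exact_mod_cast hrN) hN
  rw [one_div, ← div_eq_inv_mul, div_le_iff₀ hC0]
  linarith [h1]

end Pool.Agent.Helper83.DC7
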