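import Pool.Agent.Helper92.AR.Form
import Pool.Agent.Helper83.AH.Schmidt

/-!
DC-5. Polynomials and tensors.  `P` is a polynomial in the variables `(i, j)`, `i : Fin (k+1)`,
`j : Fin n`, homogeneous of degree one in each slot (`MultiHom univ P`), `tOf P` its coefficient array.
`tform_tOf`: `MultiHom.isML` (Helper83/AH) and `tform_tens`.
`tOf_map`: `tens` evaluates at unit vectors; `MvPolynomial.eval (algebraMap ∘ x) (map P) =
algebraMap (eval x P)` (`MvPolynomial.eval_map`, `MvPolynomial.eval₂_comp`, `MvPolynomial.aeval_def` ...)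
and `Pi.single a 1` over `K` is the image of `Pi.single a 1` over `F`.
`multiHom_map`: `support (map P) ⊆ support P` (`MvPolynomial.support_map_subset`).
`schmidt_of_pr`: let `tform (tOf P) x = ∑_i g_i x * h_i x` with `g_i` multilinear in `J_i`, `h_i` in the
complement, both non-empty.  `exists_poly` (Helper83/AH/PolyOf) gives polynomials `Q_i, R_i`, multihomogeneous
in `J_i`, `J_iᶜ`, with these values; `totalDegree_le` bounds the total degree by `card J_i ≤ k`;
`MultiHom.mul` with `J_i ∪ J_iᶜ = univ`; `ext_of_eval` shows `P = ∑ Q_i R_i`.  See the end of the proof of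
`schmidt_of_cost` in Helper83/AH/Schmidt.lean, which is the same argument.
-/

set_option autoImplicit false

namespace Pool.Agent.Helper83.DC7

open Finset
open Pool.Agent.Helper92.AR
open Pool.Agent.Helper83.AH (IsML MultiHom)

variable {k n : ℕ} {F : Type} [Field F]

/-- the coefficient array of a multihomogeneous polynomial -/
noncomputable def tOf (P : MvPolynomial (Fin (k + 1) × Fin n) F) : (Fin k → Fin n) → Fin n → F :=
  tens fun h => MvPolynomial.eval (fun c => h c.1 c.2) P

theorem tform_tOf [Fintype F] {P : MvPolynomial (Fin (k + 1) × Fin n) F}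
    (hP : MultiHom Finset.univ P) (h : Fin (k + 1) → Fin n → F) :
    tform (tOf P) h = MvPolynomial.eval (fun c => h c.1 c.2) P := by
  unfold tOf
  rw [tform_tens hP.isML]

theorem tOf_map {K : Type} [Field K] [Algebra F K] (P : MvPolynomial (Fin (k + 1) × Fin n) F) :
    tOf (MvPolynomial.map (algebraMap F K) P) = tK K (tOf P) := by
  funext i l
  unfold tOf tK tens
  beta_reduce
  rw [MvPolynomial.eval_map]
  have h1 : ∀ z : Fin (k + 1) × Fin n → F, algebraMap F K (MvPolynomial.eval z P) =
      MvPolynomial.eval₂ (algebraMap F K) (fun c => algebraMap F K (z c)) P := by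
    intro z
    rw [MvPolynomial.eval, MvPolynomial.coe_eval₂Hom, MvPolynomial.eval₂_comp_left]
    rfl
  rw [h1]
  congr 1
  funext c
  obtain ⟨j, a⟩ := c
  induction j using Fin.lastCases with
  | last =>
    simp only [Fin.snoc_last]
    by_cases ha : a = l
    · subst ha
      rw [Pi.single_eq_same, Pi.single_eq_same, map_one]
    · rw [Pi.single_eq_of_ne ha, Pi.single_eq_of_ne ha, map_zero]
  | cast b =>
    simp only [Fin.snoc_castSucc]
    by_cases ha : a = i b
    · subst ha
      rw [Pi.single_eq_same, Pi.single_eq_same, map_one]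
    · rw [Pi.single_eq_of_ne ha, Pi.single_eq_of_ne ha, map_zero]

theorem multiHom_map {K : Type} [Field K] [Algebra F K]
    {P : MvPolynomial (Fin (k + 1) × Fin n) F} (hP : MultiHom Finset.univ P) :
    MultiHom Finset.univ (MvPolynomial.map (algebraMap F K) P) := by
  intro m hm i
  exact hP m (MvPolynomial.support_map_subset _ _ hm) i

theorem schmidt_of_pr [Fintype F] {P : MvPolynomial (Fin (k + 1) × Fin n) F}
    (hP : MultiHom Finset.univ P) {N : ℕ} (h : HasPR (tform (tOf P)) N) :
    ∃ Q R : Fin N → MvPolynomial (Fin (k + 1) × Fin n) F,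
      (∀ i, (Q i).totalDegree < k + 1 ∧ (R i).totalDegree < k + 1) ∧ P = ∑ i, Q i * R i := by
  classical
  obtain ⟨J, g, g', hJ, hs⟩ := h
  have hQ : ∀ i, ∃ p : MvPolynomial (Fin (k + 1) × Fin n) F, MultiHom (J i) p ∧
      ∀ z : Fin (k + 1) × Fin n → F, MvPolynomial.eval z p = g i (fun r j => z (r, j)) :=
    fun i => Helper83.AH.exists_poly _ _ (hJ i).2.2.1
  have hR : ∀ i, ∃ p : MvPolynomial (Fin (k + 1) × Fin n) F, MultiHom (J i)ᶜ p ∧
      ∀ z : Fin (k + 1) × Fin n → F, MvPolynomial.eval z p = g' i (fun r j => z (r, j)) :=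
    fun i => Helper83.AH.exists_poly _ _ (hJ i).2.2.2
  choose Q hQm hQe using hQ
  choose R hRm hRe using hR
  have hcard : ∀ I : Finset (Fin (k + 1)), Iᶜ.Nonempty → I.card < k + 1 := by
    intro I hI
    have h1 := Finset.card_compl_add_card I
    rw [Fintype.card_fin] at h1
    have h2 := Finset.card_pos.2 hI
    omega
  refine ⟨Q, R, fun i => ⟨?_, ?_⟩, ?_⟩
  · exact lt_of_le_of_lt (hQm i).totalDegree_le (hcard _ (hJ i).2.1)
  · refine lt_of_le_of_lt (hRm i).totalDegree_le (hcard _ ?_)
    rw [compl_compl]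
    exact (hJ i).1
  · have hprod : ∀ i, MultiHom univ (Q i * R i) := by
      intro i
      rw [← Finset.union_compl (J i)]
      exact (hQm i).mul (hRm i) disjoint_compl_right
    refine hP.ext_of_eval (Helper83.AH.polyOf_sum _ fun i _ => hprod i) fun z => ?_
    have h1 := tform_tOf hP (fun r j => z (r, j))
    rw [hs] at h1
    rw [map_sum]
    simp only [map_mul, hQe, hRe]
    exact h1.symm

end Pool.Agent.Helper83.DC7
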